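import Mathlib
import Pool.Agent.Helper676.TL.Geo

set_option autoImplicit false

namespace Pool.Agent.Helper45.TLC

open Set Metric
open scoped ContDiff
open Pool.Agent.Helper676.TL

/-! ### the mirror symmetry -/

/-- reflection in the plane `x₃ = 0` -/
noncomputable def sg : E3 ≃ₗᵢ[ℝ] E3 :=
  LinearIsometryEquiv.piLpCongrRight 2
    (fun i : Fin 3 => if i = 2 then LinearIsometryEquiv.neg ℝ else LinearIsometryEquiv.refl ℝ ℝ)

theorem sg0 (x : E3) : sg x 0 = x 0 := by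
  simp [sg]

theorem sg1 (x : E3) : sg x 1 = x 1 := by
  simp [sg]

theorem sg2 (x : E3) : sg x 2 = - x 2 := by
  simp [sg]

theorem e3_ext {x y : E3} (h0 : x 0 = y 0) (h1 : x 1 = y 1) (h2 : x 2 = y 2) : x = y := by
  ext i
  fin_cases i
  · exact h0
  · exact h1
  · exact h2

theorem sg_sg (x : E3) : sg (sg x) = x :=
  e3_ext (by rw [sg0, sg0]) (by rw [sg1, sg1]) (by rw [sg2, sg2, neg_neg])

theorem cmc_mono {φ : ℂ → E3} {V V' : Set ℂ} {H : ℝ} (h : CmcImmersion φ V H) (hV : V' ⊆ V) :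
    CmcImmersion φ V' H := by
  obtain ⟨h1, h2, n, h3, h4⟩ := h
  exact ⟨h1.mono hV, fun w hw => h2 w (hV hw), n, h3.mono hV, fun w hw => h4 w (hV hw)⟩

theorem fderiv_sg (φ : ℂ → E3) (w v : ℂ) :
    fderiv ℝ (fun w => sg (φ w)) w v = sg (fderiv ℝ φ w v) := by
  have h := (sg : E3 ≃ₗᵢ[ℝ] E3).toContinuousLinearEquiv.comp_fderiv (f := φ) (x := w)
  have h2 := congrArg (fun L : ℂ →L[ℝ] E3 => L v) h
  exact h2

theorem cmc_mirror {φ : ℂ → E3} {V : Set ℂ} {H : ℝ} (h : CmcImmersion φ V H) :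
    CmcImmersion (fun w => sg (φ w)) V H := by
  obtain ⟨h1, h2, n, h3, h4⟩ := h
  have hs : ContDiff ℝ ∞ (fun x : E3 => sg x) := sg.toContinuousLinearEquiv.contDiff
  refine ⟨hs.comp_contDiffOn h1, fun w hw => ?_, fun w => sg (n w), hs.comp_contDiffOn h3,
    fun w hw => ?_⟩
  · intro a b hab
    rw [fderiv_sg, fderiv_sg] at hab
    exact h2 w hw (sg.injective hab)
  · obtain ⟨a, b, S, c, d⟩ := h4 w hw
    refine ⟨by rw [sg.norm_map, a], fun v => ?_, S, fun v => ?_, d⟩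
    · rw [fderiv_sg, sg.inner_map_map]
      exact b v
    · rw [fderiv_sg, fderiv_sg, c v, map_neg]

/-! ### charts -/

/-- there is a chart of the surface `S` with boundary `C` about `p` -/
def ChartAt (S C : Set E3) (H : ℝ) (p : E3) : Prop :=
  ∃ (U : Set E3) (V : Set ℂ) (φ : ℂ → E3) (ρ : ℂ → ℝ),
    IsOpen U ∧ p ∈ U ∧ IsOpen V ∧ CmcImmersion φ V H ∧
    Topology.IsEmbedding (fun w : V => φ w) ∧
    ContDiffOn ℝ ∞ ρ V ∧ (∀ w ∈ V, ρ w = 0 → fderiv ℝ ρ w ≠ 0) ∧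
    S ∩ U = φ '' {w | w ∈ V ∧ 0 ≤ ρ w} ∧ C ∩ U = φ '' {w | w ∈ V ∧ ρ w = 0}

theorem chart_mirror {S C : Set E3} {H : ℝ} (hS : sg '' S = S) (hC : sg '' C = C) {p : E3}
    (h : ChartAt S C H p) : ChartAt S C H (sg p) := by
  obtain ⟨U, V, φ, ρ, hU, hp, hV, hφ, he, hρ, hρ', h1, h2⟩ := h
  refine ⟨sg '' U, V, fun w => sg (φ w), ρ, ?_, ⟨p, hp, rfl⟩, hV, cmc_mirror hφ, ?_, hρ, hρ',
    ?_, ?_⟩
  · exact sg.toHomeomorph.isOpenMap U hU
  · exact sg.toHomeomorph.isEmbedding.comp he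
  · rw [← hS, ← image_inter sg.injective, h1, image_image]
  · rw [← hC, ← image_inter sg.injective, h2, image_image]

theorem emb_of_compact {K V : Set ℂ} (hK : IsCompact K) (φ : ℂ → E3) (hc : ContinuousOn φ K)
    (hi : InjOn φ K) (hV : V ⊆ K) : Topology.IsEmbedding (fun w : V => φ w) := by
  have : CompactSpace K := isCompact_iff_compactSpace.mp hK
  have h1 : Topology.IsClosedEmbedding (fun w : K => φ w) :=
    Continuous.isClosedEmbedding (continuousOn_iff_continuous_domRestrict.mp hc)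
      (injOn_iff_injective.mp hi)
  exact h1.isEmbedding.comp (Topology.IsEmbedding.inclusion hV)

/-! ### degrees -/

/-- the closed curve `c : ℝ → ℂ` has a continuous argument which increases by `2πd`. -/
def Deg (c : ℝ → ℂ) (d : ℤ) : Prop := ∃ g : ℝ → ℝ, Continuous g ∧
  (∀ θ, c θ = (‖c θ‖ : ℂ) * Complex.exp ((g θ : ℂ) * Complex.I)) ∧
  ∀ θ, g (θ + 2 * Real.pi) = g θ + 2 * Real.pi * d

theorem deg_slit (c : ℝ → ℂ) (hc : Continuous c) (hp : ∀ θ, c (θ + 2 * Real.pi) = c θ) (d : ℤ)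
    (α : ℝ) (hs : ∀ θ : ℝ, c θ * Complex.exp (((-(d * θ + α) : ℝ) : ℂ) * Complex.I) ∈
      Complex.slitPlane) : Deg c d := by
  refine ⟨fun θ => d * θ + α + (c θ * Complex.exp (((-(d * θ + α) : ℝ) : ℂ) *
    Complex.I)).arg, ?_, fun θ => ?_, fun θ => ?_⟩
  · refine (by fun_prop : Continuous fun θ : ℝ => (d : ℝ) * θ + α).add ?_
    refine continuous_iff_continuousAt.mpr fun θ => ?_
    refine (Complex.continuousAt_arg (hs θ)).comp
      (f := fun θ : ℝ => c θ * Complex.exp (((-(d * θ + α) : ℝ) : ℂ) * Complex.I)) ?_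
    fun_prop
  · set w := c θ * Complex.exp (((-(d * θ + α) : ℝ) : ℂ) * Complex.I) with hw
    have h1 := Complex.norm_mul_exp_arg_mul_I w
    have h2 : ‖w‖ = ‖c θ‖ := by
      rw [hw, norm_mul, Complex.norm_exp_ofReal_mul_I, mul_one]
    have h3 : c θ = w * Complex.exp (((d * θ + α : ℝ) : ℂ) * Complex.I) := by
      rw [hw, mul_assoc, ← Complex.exp_add]
      have : ((-(d * θ + α) : ℝ) : ℂ) * Complex.I + ((d * θ + α : ℝ) : ℂ) * Complex.I = 0 := by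
        push_cast
        ring
      rw [this, Complex.exp_zero, mul_one]
    rw [h2] at h1
    calc c θ = w * Complex.exp (((d * θ + α : ℝ) : ℂ) * Complex.I) := h3
      _ = (‖c θ‖ : ℂ) * (Complex.exp ((w.arg : ℂ) * Complex.I) *
          Complex.exp (((d * θ + α : ℝ) : ℂ) * Complex.I)) := by rw [← mul_assoc, h1]
      _ = (‖c θ‖ : ℂ) * Complex.exp (((d * θ + α + w.arg : ℝ) : ℂ) * Complex.I) := by
        rw [← Complex.exp_add]
        congr 2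
        push_cast
        ring
  · have h1 : Complex.exp (((-(d * (θ + 2 * Real.pi) + α) : ℝ) : ℂ) * Complex.I) =
        Complex.exp (((-(d * θ + α) : ℝ) : ℂ) * Complex.I) := by
      have h2 := Complex.exp_periodic.sub_int_mul_eq (x := ((-(d * θ + α) : ℝ) : ℂ) * Complex.I)
        (n := d)
      rw [← h2]
      congr 1
      push_cast
      ring
    change d * (θ + 2 * Real.pi) + α + (c (θ + 2 * Real.pi) * Complex.exp
      (((-(d * (θ + 2 * Real.pi) + α) : ℝ) : ℂ) * Complex.I)).arg = _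
    rw [h1, hp]
    ring


/-! ### an annulus has no two independent classes -/

/-- the degree of a nonvanishing closed curve is unique -/
theorem deg_unique (c : ℝ → ℂ) (hc : ∀ θ, c θ ≠ 0) (d d' : ℤ) (h : Deg c d) (h' : Deg c d') :
    d = d' := by
  obtain ⟨g, hg, hg1, hg2⟩ := h
  obtain ⟨g', hg', hg1', hg2'⟩ := h'
  have hper : ∀ θ, ∃ n : ℤ, g θ - g' θ = 2 * Real.pi * n := by
    intro θ
    have h4 : (‖c θ‖ : ℂ) ≠ 0 := by
      exact_mod_cast (norm_pos_iff.2 (hc θ)).ne'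
    have h5 : Complex.exp ((g θ : ℂ) * Complex.I) = Complex.exp ((g' θ : ℂ) * Complex.I) :=
      mul_left_cancel₀ h4 ((hg1 θ).symm.trans (hg1' θ))
    obtain ⟨n, hn⟩ := Complex.exp_eq_exp_iff_exists_int.1 h5
    refine ⟨n, ?_⟩
    have h6 := congrArg Complex.im hn
    simp at h6
    linarith
  choose N hN using hper
  have hNc : Continuous N := by
    rw [Int.isClosedEmbedding_coe_real.isEmbedding.continuous_iff]
    have h1 : ((fun n : ℤ => (n : ℝ)) ∘ N) = fun θ => (g θ - g' θ) / (2 * Real.pi) := by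
      funext θ
      have := hN θ
      simp only [Function.comp]
      rw [this]
      field_simp
    rw [h1]
    fun_prop
  have h1 : N (0 + 2 * Real.pi) = N 0 :=
    PreconnectedSpace.constant (inferInstance : PreconnectedSpace ℝ) hNc
  have h2 := hN (0 + 2 * Real.pi)
  rw [h1, hg2, hg2'] at h2
  have h3 := hN 0
  have hpi := Real.pi_pos
  have h4 : 2 * Real.pi * ((d : ℝ) - d') = 0 := by linarith
  have h5 : (d : ℝ) - d' = 0 := by
    rcases mul_eq_zero.mp h4 with h | h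
    · linarith
    · exact h
  have h6 : (d : ℝ) = d' := by linarith
  exact_mod_cast h6

/-- every nonvanishing continuous function on the annulus has an argument on the universal
covering, with an integer period -/
theorem ann_lift (u : Circle × unitInterval → ℂ) (hu : Continuous u) (h0 : ∀ x, u x ≠ 0) :
    ∃ (d : ℤ) (U : ℝ × unitInterval → ℝ), Continuous U ∧
      (∀ θ r, u (Circle.exp θ, r) =
        (‖u (Circle.exp θ, r)‖ : ℂ) * Complex.exp ((U (θ, r) : ℂ) * Complex.I)) ∧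
      ∀ θ r, U (θ + 2 * Real.pi, r) = U (θ, r) + 2 * Real.pi * d := by
  let g : ℝ × ℝ → ℂ := fun p => u (Circle.exp p.1, Set.projIcc 0 1 zero_le_one p.2)
  have hg : Continuous g := by
    refine hu.comp ?_
    exact (Circle.exp.continuous.comp continuous_fst).prodMk
      (continuous_projIcc.comp continuous_snd)
  obtain ⟨f, hf, hfg⟩ := Complex.exists_continuousOn_eqOn_exp_comp (X := ℝ × ℝ) (U := Set.univ)
    (g := g) (by
      have : ContractibleSpace (Set.univ : Set (ℝ × ℝ)) :=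
        (convex_univ : Convex ℝ (Set.univ : Set (ℝ × ℝ))).contractibleSpace Set.univ_nonempty
      exact (inferInstance : SimplyConnectedSpace (Set.univ : Set (ℝ × ℝ)))) isOpen_univ hg.continuousOn
    (by rintro ⟨x, -, hx⟩; exact h0 _ hx)
  have hfc : Continuous f := continuousOn_univ.1 hf
  have hexp : ∀ p, Complex.exp (f p) = g p := fun p => hfg (Set.mem_univ p)
  let U : ℝ × unitInterval → ℝ := fun p => (f (p.1, (p.2 : ℝ))).im
  have hU : Continuous U := by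
    refine Complex.continuous_im.comp (hfc.comp ?_)
    exact continuous_fst.prodMk (continuous_subtype_val.comp continuous_snd)
  have hval : ∀ θ (r : unitInterval), Complex.exp (f (θ, (r : ℝ))) = u (Circle.exp θ, r) := by
    intro θ r
    rw [hexp]
    simp only [g]
    rw [Set.projIcc_val]
  have harg : ∀ θ (r : unitInterval), u (Circle.exp θ, r) =
      (‖u (Circle.exp θ, r)‖ : ℂ) * Complex.exp ((U (θ, r) : ℂ) * Complex.I) := by
    intro θ r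
    rw [← hval, Complex.norm_exp, Complex.ofReal_exp, ← Complex.exp_add]
    congr 1
    exact (Complex.re_add_im _).symm
  have hper : ∀ θ (r : unitInterval), ∃ n : ℤ, U (θ + 2 * Real.pi, r) - U (θ, r) = 2 * Real.pi * n := by
    intro θ r
    have h1 : u (Circle.exp (θ + 2 * Real.pi), r) = u (Circle.exp θ, r) := by
      rw [Circle.exp_add_two_pi]
    have h2 := harg (θ + 2 * Real.pi) r
    rw [h1] at h2
    have h3 := harg θ r
    have h4 : (‖u (Circle.exp θ, r)‖ : ℂ) ≠ 0 := by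
      exact_mod_cast (norm_pos_iff.2 (h0 _)).ne'
    have h5 : Complex.exp ((U (θ + 2 * Real.pi, r) : ℂ) * Complex.I)
        = Complex.exp ((U (θ, r) : ℂ) * Complex.I) :=
      mul_left_cancel₀ h4 (h2.symm.trans h3)
    obtain ⟨n, hn⟩ := Complex.exp_eq_exp_iff_exists_int.1 h5
    refine ⟨n, ?_⟩
    have h6 := congrArg Complex.im hn
    simp at h6
    linarith
  choose N hN using hper
  have hNc : Continuous (fun p : ℝ × unitInterval => N p.1 p.2) := by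
    rw [Int.isClosedEmbedding_coe_real.isEmbedding.continuous_iff]
    have h1 : ((fun n : ℤ => (n : ℝ)) ∘ fun p : ℝ × unitInterval => N p.1 p.2)
        = fun p => (U (p.1 + 2 * Real.pi, p.2) - U (p.1, p.2)) / (2 * Real.pi) := by
      funext p
      have := hN p.1 p.2
      simp only [Function.comp]
      rw [this]
      field_simp
    rw [h1]
    fun_prop
  refine ⟨N 0 0, U, hU, harg, fun θ r => ?_⟩
  have h1 : N θ r = N 0 0 :=
    PreconnectedSpace.constant (inferInstance : PreconnectedSpace (ℝ × unitInterval)) hNc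
      (x := (θ, r)) (y := (0, 0))
  rw [← h1]
  linarith [hN θ r]

/-- lift of a closed curve on the circle -/
theorem circ_lift (l : ℝ → Circle) (hl : Continuous l) (hp : ∀ θ, l (θ + 2 * Real.pi) = l θ) :
    ∃ (k : ℤ) (g : ℝ → ℝ), Continuous g ∧ (∀ θ, l θ = Circle.exp (g θ)) ∧
      ∀ θ, g (θ + 2 * Real.pi) = g θ + 2 * Real.pi * k := by
  obtain ⟨F, ⟨hF0, hF⟩, huniq⟩ := Circle.isCoveringMap_exp.existsUnique_continuousMap_lifts
    (⟨l, hl⟩ : C(ℝ, Circle)) 0 (Complex.arg (l 0)) (Circle.exp_arg (l 0))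
  have hF' : ∀ θ, Circle.exp (F θ) = l θ := fun θ => congrFun hF θ
  have h1 : Circle.exp (F (0 + 2 * Real.pi)) = Circle.exp (F 0) := by
    rw [hF', hF', hp]
  have h2 : Circle.exp (F (0 + 2 * Real.pi) - F 0) = 1 := by
    rw [Circle.exp_sub, h1, div_self']
  obtain ⟨k, hk⟩ := Circle.exp_eq_one.mp h2
  refine ⟨k, F, F.continuous, fun θ => (hF' θ).symm, fun θ => ?_⟩
  have h3 := huniq ⟨fun θ => F (θ + 2 * Real.pi) - k * (2 * Real.pi), by fun_prop⟩ ⟨?_, ?_⟩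
  · have h4 := congrArg (fun G : C(ℝ, ℝ) => G θ) h3
    have h5 : F (θ + 2 * Real.pi) - k * (2 * Real.pi) = F θ := h4
    linarith
  · change F (0 + 2 * Real.pi) - k * (2 * Real.pi) = Complex.arg (l 0)
    rw [← hk, sub_sub_cancel, hF0]
  · funext θ
    change Circle.exp (F (θ + 2 * Real.pi) - k * (2 * Real.pi)) = l θ
    rw [Circle.exp_sub, Circle.exp_int_mul_two_pi, div_one, hF', hp]

theorem not_ann_per (U : ℝ × unitInterval → ℝ) (d : ℤ)
    (hU : ∀ θ r, U (θ + 2 * Real.pi, r) = U (θ, r) + 2 * Real.pi * d) (r : unitInterval)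
    (k : ℤ) : ∀ x : ℝ, U (x + 2 * Real.pi * k, r) = U (x, r) + 2 * Real.pi * ((k * d : ℤ) : ℝ) := by
  induction k using Int.induction_on with
  | zero => intro x; simp
  | succ i ih =>
    intro x
    have h1 : x + 2 * Real.pi * ((i + 1 : ℤ) : ℝ) = (x + 2 * Real.pi * ((i : ℤ) : ℝ)) + 2 * Real.pi := by
      push_cast; ring
    rw [h1, hU, ih]
    push_cast
    ring
  | pred i ih =>
    intro x
    have h2 := hU (x + 2 * Real.pi * ((-(i : ℤ) - 1 : ℤ) : ℝ)) r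
    have h1 : x + 2 * Real.pi * ((-(i : ℤ) - 1 : ℤ) : ℝ) + 2 * Real.pi =
        x + 2 * Real.pi * ((-(i : ℤ) : ℤ) : ℝ) := by
      push_cast; ring
    rw [h1, ih] at h2
    have h3 : U (x + 2 * Real.pi * ((-(i : ℤ) - 1 : ℤ) : ℝ), r) =
        U (x, r) + 2 * Real.pi * ((-(i : ℤ) * d : ℤ) : ℝ) - 2 * Real.pi * d := by linarith
    rw [h3]
    push_cast
    ring

theorem not_ann_deg {S : Type} [TopologicalSpace S] (h : S ≃ₜ (Circle × unitInterval))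
    (u : S → ℂ) (l : ℝ → S) (hl : Continuous l) (p : ∀ θ, l (θ + 2 * Real.pi) = l θ)
    (d : ℤ) (U : ℝ × unitInterval → ℝ) (hUc : Continuous U)
    (hU1 : ∀ θ r, u (h.symm (Circle.exp θ, r)) =
        (‖u (h.symm (Circle.exp θ, r))‖ : ℂ) * Complex.exp ((U (θ, r) : ℂ) * Complex.I))
    (hU2 : ∀ θ r, U (θ + 2 * Real.pi, r) = U (θ, r) + 2 * Real.pi * d)
    (k : ℤ) (g : ℝ → ℝ) (hg : Continuous g) (hg1 : ∀ θ, (h (l θ)).1 = Circle.exp (g θ))
    (hg2 : ∀ θ, g (θ + 2 * Real.pi) = g θ + 2 * Real.pi * k) :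
    Deg (fun θ => u (l θ)) (k * d) := by
  refine ⟨fun θ => U (g θ, (h (l θ)).2), ?_, ?_, ?_⟩
  · exact hUc.comp (hg.prodMk (continuous_snd.comp (h.continuous.comp hl)))
  · intro θ
    have h1 := hU1 (g θ) (h (l θ)).2
    have h2 : h.symm (Circle.exp (g θ), (h (l θ)).2) = l θ := by
      rw [← hg1]
      exact h.symm_apply_apply (l θ)
    rw [h2] at h1
    exact h1
  · intro θ
    show U (g (θ + 2 * Real.pi), (h (l (θ + 2 * Real.pi))).2) = _
    rw [p, hg2, not_ann_per U d hU2]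

/-- a space with two functions and two loops with degree matrix the identity is not an annulus -/
theorem not_ann {S : Type} [TopologicalSpace S] (u1 u2 : S → ℂ) (hu1 : Continuous u1)
    (hu2 : Continuous u2) (z1 : ∀ x, u1 x ≠ 0) (z2 : ∀ x, u2 x ≠ 0) (l1 l2 : ℝ → S)
    (hl1 : Continuous l1) (hl2 : Continuous l2) (p1 : ∀ θ, l1 (θ + 2 * Real.pi) = l1 θ)
    (p2 : ∀ θ, l2 (θ + 2 * Real.pi) = l2 θ) (d11 : Deg (fun θ => u1 (l1 θ)) 1)
    (d12 : Deg (fun θ => u1 (l2 θ)) 0) (d21 : Deg (fun θ => u2 (l1 θ)) 0)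
    (d22 : Deg (fun θ => u2 (l2 θ)) 1) : ¬ Nonempty (S ≃ₜ (Circle × unitInterval)) := by
  rintro ⟨h⟩
  obtain ⟨d1, U1, hU1c, hU11, hU12⟩ := ann_lift (fun x => u1 (h.symm x))
    (hu1.comp h.symm.continuous) (fun x => z1 _)
  obtain ⟨d2, U2, hU2c, hU21, hU22⟩ := ann_lift (fun x => u2 (h.symm x))
    (hu2.comp h.symm.continuous) (fun x => z2 _)
  obtain ⟨k1, g1, hg1c, hg11, hg12⟩ := circ_lift (fun θ => (h (l1 θ)).1)
    (continuous_fst.comp (h.continuous.comp hl1)) (fun θ => by simp only [p1])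
  obtain ⟨k2, g2, hg2c, hg21, hg22⟩ := circ_lift (fun θ => (h (l2 θ)).1)
    (continuous_fst.comp (h.continuous.comp hl2)) (fun θ => by simp only [p2])
  have e11 := deg_unique _ (fun θ => z1 _) _ _ d11
    (not_ann_deg h u1 l1 hl1 p1 d1 U1 hU1c hU11 hU12 k1 g1 hg1c hg11 hg12)
  have e12 := deg_unique _ (fun θ => z1 _) _ _ d12
    (not_ann_deg h u1 l2 hl2 p2 d1 U1 hU1c hU11 hU12 k2 g2 hg2c hg21 hg22)
  have e22 := deg_unique _ (fun θ => z2 _) _ _ d22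
    (not_ann_deg h u2 l2 hl2 p2 d2 U2 hU2c hU21 hU22 k2 g2 hg2c hg21 hg22)
  have hd1 : d1 ≠ 0 := by
    rintro rfl
    rw [mul_zero] at e11
    exact one_ne_zero e11
  have hk2 : k2 = 0 := by
    rcases mul_eq_zero.1 e12.symm with h1 | h1
    · exact h1
    · exact absurd h1 hd1
  rw [hk2, zero_mul] at e22
  exact one_ne_zero e22

/-! ### the parameter region -/

theorem ut_open (t : ℝ) : IsOpen (Ut t) := by
  have h1 : IsOpen {ζ : ℂ | ‖ζ‖ < 12} := isOpen_lt continuous_norm continuous_const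
  have h2 : IsOpen {ζ : ℂ | t / 2 < ‖ζ - 1‖} := isOpen_lt continuous_const (by fun_prop)
  have h3 : IsOpen {ζ : ℂ | t / 2 < ‖ζ + 1‖} := isOpen_lt continuous_const (by fun_prop)
  exact h1.inter (h2.inter h3)

/-- compactness of the parameter region -/
theorem dc_compact (t z₀ : ℝ) (z : ℂ → ℝ) (ht : 0 < t) (ht1 : t < 1 / 100)
    (cz : ContDiffOn ℝ ∞ z (Ut t))
    (out1 : ∀ ζ, 9 ≤ ‖ζ‖ → ‖ζ‖ ≤ 19 / 2 → z₀ < z ζ) : IsCompact (Dc t z₀ z) := by
  have c1 : IsClosed {ζ : ℂ | t ≤ ‖ζ - 1‖} := isClosed_le continuous_const (by fun_prop)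
  have c2 : IsClosed {ζ : ℂ | t ≤ ‖ζ + 1‖} := isClosed_le continuous_const (by fun_prop)
  have c3 : IsClosed {ζ : ℂ | ‖ζ‖ ≤ 9} := isClosed_le continuous_norm continuous_const
  have c4 : IsClosed {ζ : ℂ | ‖ζ‖ ≤ 11} := isClosed_le continuous_norm continuous_const
  have hC : IsClosed ({ζ : ℂ | t ≤ ‖ζ - 1‖} ∩ {ζ : ℂ | t ≤ ‖ζ + 1‖} ∩ {ζ : ℂ | ‖ζ‖ ≤ 11}) :=
    (c1.inter c2).inter c4
  have hCU : ({ζ : ℂ | t ≤ ‖ζ - 1‖} ∩ {ζ : ℂ | t ≤ ‖ζ + 1‖} ∩ {ζ : ℂ | ‖ζ‖ ≤ 11}) ⊆ Ut t := by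
    rintro ζ ⟨⟨h1, h2⟩, h3⟩
    have h1' : t ≤ ‖ζ - 1‖ := h1
    have h2' : t ≤ ‖ζ + 1‖ := h2
    have h3' : ‖ζ‖ ≤ 11 := h3
    exact ⟨by linarith, by linarith, by linarith⟩
  have h5 := (cz.continuousOn.mono hCU).preimage_isClosed_of_isClosed hC
    (isClosed_Ici : IsClosed (Ici z₀))
  have h6 : Dc t z₀ z = ({ζ : ℂ | t ≤ ‖ζ - 1‖} ∩ {ζ : ℂ | t ≤ ‖ζ + 1‖} ∩ {ζ : ℂ | ‖ζ‖ ≤ 9}) ∪
      (({ζ : ℂ | t ≤ ‖ζ - 1‖} ∩ {ζ : ℂ | t ≤ ‖ζ + 1‖} ∩ {ζ : ℂ | ‖ζ‖ ≤ 11}) ∩ z ⁻¹' Ici z₀) := by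
    ext ζ
    constructor
    · rintro ⟨h1, h2, h3 | ⟨h3, h4⟩⟩
      · exact Or.inl ⟨⟨h1, h2⟩, h3⟩
      · exact Or.inr ⟨⟨⟨h1, h2⟩, h3⟩, h4⟩
    · rintro (⟨⟨h1, h2⟩, h3⟩ | ⟨⟨⟨h1, h2⟩, h3⟩, h4⟩)
      · exact ⟨h1, h2, Or.inl h3⟩
      · exact ⟨h1, h2, Or.inr ⟨h3, h4⟩⟩
  have hcl : IsClosed (Dc t z₀ z) := by
    rw [h6]
    exact ((c1.inter c2).inter c3).union h5
  apply Metric.isCompact_of_isClosed_isBounded hcl
  apply (Metric.isBounded_closedBall (x := (0 : ℂ)) (r := 11)).subset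
  rintro ζ ⟨-, -, h3 | ⟨h3, -⟩⟩
  · rw [mem_closedBall_zero_iff]
    linarith
  · rw [mem_closedBall_zero_iff]
    exact h3

/-- connectedness of the parameter region -/
theorem dc_conn (t z₀ : ℝ) (z : ℂ → ℝ) (ht : 0 < t) (ht1 : t < 1 / 100)
    (cz : ContDiffOn ℝ ∞ z (Ut t))
    (out1 : ∀ ζ, 9 ≤ ‖ζ‖ → ‖ζ‖ ≤ 19 / 2 → z₀ < z ζ)
    (dec : ∀ ζ, 9 ≤ ‖ζ‖ → ‖ζ‖ ≤ 11 → fderiv ℝ z ζ ζ < 0) : IsConnected (Dc t z₀ z) := by
  have hsub1 : ∀ ζ : ℂ, 9 ≤ ‖ζ‖ → 8 ≤ ‖ζ - 1‖ ∧ 8 ≤ ‖ζ + 1‖ := by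
    intro ζ hζ
    have h1 := norm_sub_norm_le ζ 1
    have h2 := norm_sub_norm_le ζ (-1)
    rw [norm_one] at h1
    rw [norm_neg, norm_one, sub_neg_eq_add] at h2
    exact ⟨by linarith, by linarith⟩
  have hsph : sphere (0 : ℂ) 9 ⊆ Dc t z₀ z := by
    intro ζ hζ
    rw [mem_sphere_zero_iff_norm] at hζ
    obtain ⟨h1, h2⟩ := hsub1 ζ hζ.ge
    exact ⟨by linarith, by linarith, Or.inl hζ.le⟩
  have hsc : IsPreconnected (sphere (0 : ℂ) 9) :=
    isPreconnected_sphere (by rw [Complex.rank_real_complex]; exact Cardinal.one_lt_two) _ _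
  have h9 : (9 : ℂ) ∈ sphere (0 : ℂ) 9 := by
    rw [mem_sphere_zero_iff_norm]
    simp
  refine ⟨⟨9, hsph h9⟩, ?_⟩
  apply isPreconnected_of_forall (9 : ℂ)
  rintro y ⟨hy1, hy2, hy3⟩
  by_cases hy9 : ‖y‖ ≤ 9
  · -- vertical segment
    obtain ⟨e, he1, he2⟩ : ∃ e : ℝ, e ^ 2 = 1 ∧ 0 ≤ e * y.im := by
      rcases le_total 0 y.im with h | h
      · exact ⟨1, by norm_num, by linarith⟩
      · exact ⟨-1, by norm_num, by linarith⟩
    have hnsq : ∀ w : ℂ, ‖w‖ ^ 2 = w.re ^ 2 + w.im ^ 2 := by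
      intro w
      rw [Complex.sq_norm, Complex.normSq_apply]
      ring
    have hre : y.re ^ 2 + y.im ^ 2 ≤ 81 := by
      rw [← hnsq]
      nlinarith [norm_nonneg y]
    have hemul : (e * y.im) ^ 2 = y.im ^ 2 := by rw [mul_pow, he1, one_mul]
    obtain ⟨S, hS⟩ : ∃ S, S = Real.sqrt (81 - y.re ^ 2) - e * y.im := ⟨_, rfl⟩
    have hS0 : 0 ≤ S := by
      rw [hS, sub_nonneg]
      apply Real.le_sqrt_of_sq_le
      rw [hemul]
      linarith
    have hS2 : (e * y.im + S) ^ 2 = 81 - y.re ^ 2 := by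
      rw [hS, add_sub_cancel, Real.sq_sqrt]
      nlinarith [sq_nonneg y.im]
    have him : ∀ s : ℝ, (y.im + s * e) ^ 2 = (e * y.im + s) ^ 2 := by
      intro s
      have : (y.im + s * e) ^ 2 = y.im ^ 2 + 2 * s * (e * y.im) + s ^ 2 * e ^ 2 := by ring
      rw [this, he1, ← hemul]
      ring
    let φ : ℝ → ℂ := fun s => ⟨y.re, y.im + s * e⟩
    have hφc : Continuous φ := by
      have : φ = fun s : ℝ => (y : ℂ) + ((s * e : ℝ) : ℂ) * Complex.I := by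
        funext s
        apply Complex.ext
        · simp [φ]
        · simp [φ]
      rw [this]
      fun_prop
    refine ⟨φ '' Icc 0 S ∪ sphere (0 : ℂ) 9, ?_, Or.inr h9, Or.inl ⟨0, ⟨le_rfl, hS0⟩, ?_⟩, ?_⟩
    · apply union_subset _ hsph
      rintro _ ⟨s, ⟨hs0, hsS⟩, rfl⟩
      have hge : y.im ^ 2 ≤ (y.im + s * e) ^ 2 := by
        rw [him, ← hemul]
        nlinarith
      have hle : (y.im + s * e) ^ 2 ≤ 81 - y.re ^ 2 := by
        rw [him, ← hS2]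
        nlinarith
      have hn1 : ‖y - 1‖ ^ 2 ≤ ‖φ s - 1‖ ^ 2 := by
        rw [hnsq, hnsq]
        simp only [φ, Complex.sub_re, Complex.one_re, Complex.sub_im, Complex.one_im, sub_zero]
        linarith
      have hn2 : ‖y + 1‖ ^ 2 ≤ ‖φ s + 1‖ ^ 2 := by
        rw [hnsq, hnsq]
        simp only [φ, Complex.add_re, Complex.one_re, Complex.add_im, Complex.one_im, add_zero]
        linarith
      have hn3 : ‖φ s‖ ^ 2 ≤ 9 ^ 2 := by
        rw [hnsq]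
        simp only [φ]
        linarith
      refine ⟨hy1.trans (le_of_sq_le_sq hn1 (norm_nonneg _)),
        hy2.trans (le_of_sq_le_sq hn2 (norm_nonneg _)), Or.inl ?_⟩
      exact le_of_sq_le_sq hn3 (by norm_num)
    · apply Complex.ext <;> simp [φ]
    · refine IsPreconnected.union (φ S) ⟨S, ⟨hS0, le_rfl⟩, rfl⟩ ?_
        (isPreconnected_Icc.image φ hφc.continuousOn) hsc
      rw [mem_sphere_zero_iff_norm]
      have hn : ‖φ S‖ ^ 2 = 9 ^ 2 := by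
        rw [hnsq]
        simp only [φ]
        rw [him, hS2]
        ring
      exact (sq_eq_sq₀ (norm_nonneg _) (by norm_num)).1 hn
  · -- radial segment
    push Not at hy9
    rcases hy3 with hy3 | ⟨hy11, hyz⟩
    · exact absurd hy3 (not_le.2 hy9)
    have hypos : 0 < ‖y‖ := by linarith
    have hl1 : 9 / ‖y‖ ≤ 1 := by
      rw [div_le_one hypos]
      exact hy9.le
    have hl0 : 0 < 9 / ‖y‖ := by positivity
    let φ : ℝ → ℂ := fun l => l • y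
    have hφc : Continuous φ := by fun_prop
    have hφn : ∀ l ∈ Icc (9 / ‖y‖) 1, 9 ≤ ‖φ l‖ ∧ ‖φ l‖ ≤ 11 := by
      rintro l ⟨h1, h2⟩
      have hl : 0 ≤ l := hl0.le.trans h1
      have h3 : ‖φ l‖ = l * ‖y‖ := by
        simp only [φ]
        rw [norm_smul, Real.norm_of_nonneg hl]
      rw [h3]
      constructor
      · rwa [div_le_iff₀ hypos] at h1
      · nlinarith
    have hφU : ∀ l ∈ Icc (9 / ‖y‖) 1, φ l ∈ Ut t := by
      intro l hl
      obtain ⟨h1, h2⟩ := hφn l hl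
      obtain ⟨h3, h4⟩ := hsub1 _ h1
      exact ⟨by linarith, by linarith, by linarith⟩
    have hdz : ∀ l ∈ Icc (9 / ‖y‖) 1, DifferentiableAt ℝ z (φ l) := by
      intro l hl
      exact (cz.differentiableOn (by simp)).differentiableAt ((ut_open t).mem_nhds (hφU l hl))
    have hderiv : ∀ l ∈ Icc (9 / ‖y‖) 1, HasDerivAt (fun s => z (φ s)) (fderiv ℝ z (φ l) y) l := by
      intro l hl
      have h1 : HasDerivAt φ y l := by
        have := (hasDerivAt_id l).smul_const y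
        simpa [φ] using this
      exact (hdz l hl).hasFDerivAt.comp_hasDerivAt l h1
    have hanti : AntitoneOn (fun s => z (φ s)) (Icc (9 / ‖y‖) 1) := by
      apply antitoneOn_of_deriv_nonpos (convex_Icc _ _)
      · intro l hl
        exact (hderiv l hl).continuousAt.continuousWithinAt
      · intro l hl
        rw [interior_Icc] at hl
        exact (hderiv l (Ioo_subset_Icc_self hl)).differentiableAt.differentiableWithinAt
      · intro l hl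
        rw [interior_Icc] at hl
        have hl' := Ioo_subset_Icc_self hl
        rw [(hderiv l hl').deriv]
        obtain ⟨h1, h2⟩ := hφn l hl'
        have h3 := dec (φ l) h1 h2
        have h4 : fderiv ℝ z (φ l) (φ l) = l * fderiv ℝ z (φ l) y := by
          have : fderiv ℝ z (φ l) (l • y) = l • fderiv ℝ z (φ l) y := map_smul _ _ _
          exact this
        rw [h4] at h3
        have hlpos : 0 < l := hl0.trans hl.1
        by_contra hcon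
        push Not at hcon
        nlinarith [mul_pos hlpos hcon]
    refine ⟨φ '' Icc (9 / ‖y‖) 1 ∪ sphere (0 : ℂ) 9, ?_, Or.inr h9,
      Or.inl ⟨1, ⟨hl1, le_rfl⟩, ?_⟩, ?_⟩
    · apply union_subset _ hsph
      rintro _ ⟨l, hl, rfl⟩
      obtain ⟨h1, h2⟩ := hφn l hl
      obtain ⟨h3, h4⟩ := hsub1 _ h1
      refine ⟨by linarith, by linarith, Or.inr ⟨h2, ?_⟩⟩
      have h5 := hanti hl ⟨hl1, le_rfl⟩ hl.2
      have h6 : z (φ 1) = z y := by
        simp [φ]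
      have h7 : z (φ 1) ≤ z (φ l) := h5
      rw [h6] at h7
      exact hyz.trans h7
    · simp [φ]
    · refine IsPreconnected.union (φ (9 / ‖y‖)) ⟨9 / ‖y‖, ⟨le_rfl, hl1⟩, rfl⟩ ?_
        (isPreconnected_Icc.image φ hφc.continuousOn) hsc
      rw [mem_sphere_zero_iff_norm]
      simp only [φ]
      rw [norm_smul, Real.norm_of_nonneg hl0.le]
      field_simp


/-! ### the surface -/

section lens

variable {t H z₀ : ℝ} {f : ℂ → ℂ} {z : ℂ → ℝ}

/-- upper sheet region up to radius 11 -/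
def Gb (t : ℝ) : Set ℂ := {ζ | t ≤ ‖ζ - 1‖ ∧ t ≤ ‖ζ + 1‖ ∧ ‖ζ‖ ≤ 11}

/-- outer curve -/
def Oc (z₀ : ℝ) (z : ℂ → ℝ) : Set ℂ := {ζ | 9 ≤ ‖ζ‖ ∧ ‖ζ‖ ≤ 11 ∧ z ζ = z₀}

/-- the surface -/
def Su (t z₀ : ℝ) (f : ℂ → ℂ) (z : ℂ → ℝ) : Set E3 :=
  Xmap f z '' Dc t z₀ z ∪ (fun ζ => sg (Xmap f z ζ)) '' Dc t z₀ z

/-- its boundary -/
def Cu (z₀ : ℝ) (f : ℂ → ℂ) (z : ℂ → ℝ) : Set E3 :=
  Xmap f z '' Oc z₀ z ∪ (fun ζ => sg (Xmap f z ζ)) '' Oc z₀ z

theorem X0 (ζ : ℂ) : Xmap f z ζ 0 = (f ζ).re := rfl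
theorem X1 (ζ : ℂ) : Xmap f z ζ 1 = (f ζ).im := rfl
theorem X2 (ζ : ℂ) : Xmap f z ζ 2 = z ζ := rfl

theorem X_eq {ζ ζ' : ℂ} : Xmap f z ζ = Xmap f z ζ' ↔ f ζ = f ζ' ∧ z ζ = z ζ' := by
  constructor
  · intro h
    refine ⟨Complex.ext ?_ ?_, ?_⟩
    · rw [← X0 (f := f) (z := z) ζ, h, X0]
    · rw [← X1 (f := f) (z := z) ζ, h, X1]
    · rw [← X2 (f := f) (z := z) ζ, h, X2]
  · rintro ⟨h1, h2⟩
    unfold Xmap
    rw [h1, h2]

theorem X_sg {ζ ζ' : ℂ} : Xmap f z ζ = sg (Xmap f z ζ') ↔ f ζ = f ζ' ∧ z ζ = - z ζ' := by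
  constructor
  · intro h
    refine ⟨Complex.ext ?_ ?_, ?_⟩
    · rw [← X0 (f := f) (z := z) ζ, h, sg0, X0]
    · rw [← X1 (f := f) (z := z) ζ, h, sg1, X1]
    · rw [← X2 (f := f) (z := z) ζ, h, sg2, X2]
  · rintro ⟨h1, h2⟩
    refine e3_ext ?_ ?_ ?_
    · rw [sg0, X0, X0, h1]
    · rw [sg1, X1, X1, h1]
    · rw [sg2, X2, X2, h2]

theorem Gb_Gc {ζ : ℂ} (h : ζ ∈ Gb t) : ζ ∈ Gc t :=
  ⟨lt_of_le_of_lt h.2.2 (by norm_num), h.1, h.2.1⟩

theorem Gb_Ut (ht : 0 < t) : Gb t ⊆ Ut t := fun _ h =>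
  ⟨lt_of_le_of_lt h.2.2 (by norm_num), lt_of_lt_of_le (by linarith) h.1,
    lt_of_lt_of_le (by linarith) h.2.1⟩

theorem Dc_Gb : Dc t z₀ z ⊆ Gb t := fun _ h =>
  ⟨h.1, h.2.1, h.2.2.elim (fun h => h.trans (by norm_num)) fun h => h.1⟩

theorem Oc_Dc (ht1 : t < 1 / 100) : Oc z₀ z ⊆ Dc t z₀ z := by
  intro ζ h
  obtain ⟨h1, h2, h3⟩ := h
  refine ⟨?_, ?_, Or.inr ⟨h2, h3.ge⟩⟩
  · have := norm_sub_norm_le ζ 1
    rw [norm_one] at this
    linarith
  · have := norm_sub_norm_le ζ (-1)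
    rw [norm_neg, norm_one, sub_neg_eq_add] at this
    linarith

theorem nonneg (D : LensData t H z₀ f z) {ζ : ℂ} (h : ζ ∈ Gb t) :
    0 ≤ z ζ ∧ (z ζ = 0 → ‖ζ - 1‖ = t ∨ ‖ζ + 1‖ = t) := by
  by_cases h1 : ‖ζ - 1‖ = t
  · exact ⟨(D.zero_p ζ h1).ge, fun _ => Or.inl h1⟩
  by_cases h2 : ‖ζ + 1‖ = t
  · exact ⟨(D.zero_m ζ h2).ge, fun _ => Or.inr h2⟩
  have h3 := D.pos ζ (Gb_Gc h) h.2.2 h1 h2
  exact ⟨h3.le, fun h4 => absurd h4 h3.ne'⟩

theorem injX (D : LensData t H z₀ f z) : InjOn (Xmap f z) (Gb t) := by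
  intro ζ h ζ' h' e
  obtain ⟨e1, e2⟩ := X_eq.mp e
  exact D.inj ζ (Gb_Gc h) ζ' (Gb_Gc h') h.2.2 h'.2.2 e1 e2

theorem mirX (D : LensData t H z₀ f z) {ζ ζ' : ℂ} (h : ζ ∈ Gb t) (h' : ζ' ∈ Gb t)
    (e : Xmap f z ζ = sg (Xmap f z ζ')) : ζ = ζ' ∧ (‖ζ - 1‖ = t ∨ ‖ζ + 1‖ = t) := by
  obtain ⟨e1, e2⟩ := X_sg.mp e
  obtain ⟨a1, a2⟩ := nonneg D h
  obtain ⟨b1, b2⟩ := nonneg D h'
  have h3 : z ζ = 0 := by linarith
  have h4 : z ζ' = 0 := by linarith
  exact ⟨injX D h h' (X_eq.mpr ⟨e1, by rw [h3, h4]⟩), a2 h3⟩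

theorem X_cont (D : LensData t H z₀ f z) : ContinuousOn (Xmap f z) (Ut t) :=
  D.cmc.1.continuousOn

theorem Su_sg : sg '' Su t z₀ f z = Su t z₀ f z := by
  unfold Su
  rw [image_union, image_image, image_image, union_comm]
  simp only [sg_sg]

theorem Cu_sg : sg '' Cu z₀ f z = Cu z₀ f z := by
  unfold Cu
  rw [image_union, image_image, image_image, union_comm]
  simp only [sg_sg]

theorem chart_up (D : LensData t H z₀ f z) (hDc : IsCompact (Dc t z₀ z)) (V : Set ℂ)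
    (hVo : IsOpen V) (hV : ∀ w ∈ V, t < ‖w - 1‖ ∧ t < ‖w + 1‖ ∧ ‖w‖ < 11) (ρ : ℂ → ℝ)
    (hρ : ContDiffOn ℝ ∞ ρ V) (hρ' : ∀ w ∈ V, ρ w = 0 → fderiv ℝ ρ w ≠ 0)
    (hS : ∀ w ∈ V, w ∈ Dc t z₀ z ↔ 0 ≤ ρ w) (hC : ∀ w ∈ V, w ∈ Oc z₀ z ↔ ρ w = 0)
    {ζ₀ : ℂ} (h' : ζ₀ ∈ V) : ChartAt (Su t z₀ f z) (Cu z₀ f z) H (Xmap f z ζ₀) := by
  have ht := D.ht
  have hVG : V ⊆ Gb t := fun w hw => ⟨(hV w hw).1.le, (hV w hw).2.1.le, (hV w hw).2.2.le⟩
  have hXc : ContinuousOn (Xmap f z) (Gb t) := (X_cont D).mono (Gb_Ut ht)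
  have hsXc : ContinuousOn (fun ζ => sg (Xmap f z ζ)) (Gb t) := sg.continuous.comp_continuousOn hXc
  have hK1 : IsCompact (Xmap f z '' (Dc t z₀ z \ V)) :=
    (hDc.diff hVo).image_of_continuousOn (hXc.mono (sdiff_subset.trans Dc_Gb))
  have hK2 : IsCompact ((fun ζ => sg (Xmap f z ζ)) '' Dc t z₀ z) :=
    hDc.image_of_continuousOn (hsXc.mono Dc_Gb)
  have hnot : ∀ w ∈ V, Xmap f z w ∉ Xmap f z '' (Dc t z₀ z \ V) ∪
      (fun ζ => sg (Xmap f z ζ)) '' Dc t z₀ z := by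
    rintro w hw (⟨ζ, ⟨hζ, hζV⟩, e⟩ | ⟨ζ, hζ, e⟩)
    · exact hζV (injX D (Dc_Gb hζ) (hVG hw) e ▸ hw)
    · obtain ⟨-, h1 | h1⟩ := mirX D (hVG hw) (Dc_Gb hζ) e.symm
      · exact (hV w hw).1.ne' h1
      · exact (hV w hw).2.1.ne' h1
  have hcl : IsCompact (closedBall (0 : ℂ) 11 ∩ ({ζ | t ≤ ‖ζ - 1‖} ∩ {ζ | t ≤ ‖ζ + 1‖})) := by
    refine (isCompact_closedBall 0 11).inter_right ?_
    exact (isClosed_le continuous_const (by fun_prop)).inter
      (isClosed_le continuous_const (by fun_prop))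
  have hclG : closedBall (0 : ℂ) 11 ∩ ({ζ | t ≤ ‖ζ - 1‖} ∩ {ζ | t ≤ ‖ζ + 1‖}) ⊆ Gb t :=
    fun ζ h => ⟨h.2.1, h.2.2, mem_closedBall_zero_iff.mp h.1⟩
  refine ⟨(Xmap f z '' (Dc t z₀ z \ V) ∪ (fun ζ => sg (Xmap f z ζ)) '' Dc t z₀ z)ᶜ, V,
    Xmap f z, ρ, (hK1.union hK2).isClosed.isOpen_compl, hnot _ h', hVo,
    cmc_mono D.cmc (hVG.trans (Gb_Ut ht)), ?_, hρ, hρ', ?_, ?_⟩
  · exact emb_of_compact hcl _ (hXc.mono hclG) ((injX D).mono hclG) fun w hw =>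
      ⟨mem_closedBall_zero_iff.mpr (hV w hw).2.2.le, (hV w hw).1.le, (hV w hw).2.1.le⟩
  · ext p
    constructor
    · rintro ⟨⟨ζ, hζ, rfl⟩ | ⟨ζ, hζ, rfl⟩, hU⟩
      · by_cases hζV : ζ ∈ V
        · exact ⟨ζ, ⟨hζV, (hS ζ hζV).mp hζ⟩, rfl⟩
        · exact absurd (Or.inl ⟨ζ, ⟨hζ, hζV⟩, rfl⟩) hU
      · exact absurd (Or.inr ⟨ζ, hζ, rfl⟩) hU
    · rintro ⟨w, ⟨hw, hw2⟩, rfl⟩
      exact ⟨Or.inl ⟨w, (hS w hw).mpr hw2, rfl⟩, hnot w hw⟩
  · ext p
    constructor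
    · rintro ⟨⟨ζ, hζ, rfl⟩ | ⟨ζ, hζ, rfl⟩, hU⟩
      · by_cases hζV : ζ ∈ V
        · exact ⟨ζ, ⟨hζV, (hC ζ hζV).mp hζ⟩, rfl⟩
        · exact absurd (Or.inl ⟨ζ, ⟨Oc_Dc D.ht1 hζ, hζV⟩, rfl⟩) hU
      · exact absurd (Or.inr ⟨ζ, Oc_Dc D.ht1 hζ, rfl⟩) hU
    · rintro ⟨w, ⟨hw, hw2⟩, rfl⟩
      exact ⟨Or.inl ⟨w, (hC w hw).mpr hw2, rfl⟩, hnot w hw⟩

theorem op_gt (r : ℝ) (c : ℂ) : IsOpen {w : ℂ | r < ‖w - c‖} :=
  isOpen_lt (f := fun _ : ℂ => r) (g := fun w => ‖w - c‖) continuous_const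
    (continuous_id.sub continuous_const).norm

theorem op_gt' (r : ℝ) (c : ℂ) : IsOpen {w : ℂ | r < ‖w + c‖} :=
  isOpen_lt (f := fun _ : ℂ => r) (g := fun w => ‖w + c‖) continuous_const
    (continuous_id.add continuous_const).norm

theorem op_lt (r : ℝ) : IsOpen {w : ℂ | ‖w‖ < r} :=
  isOpen_lt (f := fun w : ℂ => ‖w‖) (g := fun _ => r) continuous_norm continuous_const

theorem far1 (ht1 : t < 1 / 100) {ζ : ℂ} (h : 9 ≤ ‖ζ‖) : t < ‖ζ - 1‖ ∧ t < ‖ζ + 1‖ := by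
  constructor
  · have := norm_sub_norm_le ζ 1
    rw [norm_one] at this
    linarith
  · have := norm_sub_norm_le ζ (-1)
    rw [norm_neg, norm_one, sub_neg_eq_add] at this
    linarith

theorem chart_a (D : LensData t H z₀ f z) (hDc : IsCompact (Dc t z₀ z)) {ζ₀ : ℂ}
    (h0 : ζ₀ ∈ Dc t z₀ z) (h1 : ‖ζ₀ - 1‖ ≠ t) (h2 : ‖ζ₀ + 1‖ ≠ t) (h3 : ‖ζ₀‖ < 19 / 2) :
    ChartAt (Su t z₀ f z) (Cu z₀ f z) H (Xmap f z ζ₀) := by
  refine chart_up D hDc {w | (t < ‖w - 1‖ ∧ t < ‖w + 1‖) ∧ ‖w‖ < 19 / 2} ?_ ?_ (fun _ => 1)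
    contDiffOn_const ?_ ?_ ?_ ⟨⟨lt_of_le_of_ne h0.1 h1.symm, lt_of_le_of_ne h0.2.1 h2.symm⟩, h3⟩
  · exact ((op_gt t 1).inter (op_gt' t 1)).inter (op_lt (19 / 2))
  · exact fun w hw => ⟨hw.1.1, hw.1.2, lt_trans hw.2 (by norm_num)⟩
  · exact fun w _ h => absurd h one_ne_zero
  · intro w hw
    refine ⟨fun _ => zero_le_one, fun _ => ⟨hw.1.1.le, hw.1.2.le, ?_⟩⟩
    by_cases h9 : ‖w‖ ≤ 9
    · exact Or.inl h9
    · push Not at h9
      exact Or.inr ⟨hw.2.le.trans (by norm_num), (D.out1 w h9.le hw.2.le).le⟩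
  · intro w hw
    refine ⟨fun h => ?_, fun h => absurd h one_ne_zero⟩
    have := D.out1 w h.1 hw.2.le
    exact absurd h.2.2 this.ne'

theorem chart_b (D : LensData t H z₀ f z) (hDc : IsCompact (Dc t z₀ z)) {ζ₀ : ℂ}
    (h0 : ζ₀ ∈ Dc t z₀ z) (h3 : 19 / 2 ≤ ‖ζ₀‖) :
    ChartAt (Su t z₀ f z) (Cu z₀ f z) H (Xmap f z ζ₀) := by
  have h4 : ‖ζ₀‖ < 11 := by
    rcases h0.2.2 with h | h
    · linarith
    · by_contra h5
      push Not at h5
      have := D.out2 ζ₀ (by linarith) h.1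
      linarith [h.2]
  have hVU : {w : ℂ | 9 < ‖w‖ ∧ ‖w‖ < 11} ⊆ Ut t := fun w hw => by
    obtain ⟨a, b⟩ := far1 D.ht1 hw.1.le
    have ht := D.ht
    exact ⟨lt_trans hw.2 (by norm_num), by linarith, by linarith⟩
  have hUo : IsOpen {w : ℂ | 9 < ‖w‖ ∧ ‖w‖ < 11} :=
    (isOpen_lt (f := fun _ : ℂ => (9 : ℝ)) (g := fun w => ‖w‖) continuous_const
      continuous_norm).inter (op_lt 11)
  refine chart_up D hDc {w | 9 < ‖w‖ ∧ ‖w‖ < 11} hUo ?_ (fun w => z w - z₀)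
    ((D.cz.mono hVU).sub contDiffOn_const) ?_ ?_ ?_ ⟨by linarith, h4⟩
  · exact fun w hw => ⟨(far1 D.ht1 hw.1.le).1, (far1 D.ht1 hw.1.le).2, hw.2⟩
  · intro w hw _ h
    have h5 := D.dec w hw.1.le hw.2.le
    rw [fderiv_sub_const] at h
    rw [h] at h5
    simp at h5
  · intro w hw
    rw [sub_nonneg]
    constructor
    · rintro ⟨-, -, h | h⟩
      · exact absurd h (not_le.mpr hw.1)
      · exact h.2
    · intro h
      obtain ⟨a, b⟩ := far1 D.ht1 hw.1.le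
      exact ⟨a.le, b.le, Or.inr ⟨hw.2.le, h⟩⟩
  · intro w hw
    rw [sub_eq_zero]
    exact ⟨fun h => h.2.2, fun h => ⟨hw.1.le, hw.2.le, h⟩⟩

end lens

section waist

variable {t H z₀ : ℝ} {f : ℂ → ℂ} {z : ℂ → ℝ}

/-- inversion in the circle of radius `t` about `c` -/
noncomputable def kc (t : ℝ) (c ζ : ℂ) : ℂ := c + t ^ 2 / cj (ζ - c)

theorem kc_norm (c ζ : ℂ) : ‖kc t c ζ - c‖ = t ^ 2 / ‖ζ - c‖ := by
  unfold kc
  rw [add_sub_cancel_left, norm_div, norm_pow, Complex.norm_real, Real.norm_eq_abs, sq_abs,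
    RCLike.norm_conj]

theorem kc_kc (ht : 0 < t) (c ζ : ℂ) (h : ζ ≠ c) : kc t c (kc t c ζ) = ζ := by
  have h1 : ζ - c ≠ 0 := sub_ne_zero.mpr h
  have h2 : cj (ζ - c) ≠ 0 := by
    rw [Ne, map_eq_zero]
    exact h1
  have h3 : (t : ℂ) ≠ 0 := by exact_mod_cast ht.ne'
  have h4 : cj (kc t c ζ - c) = t ^ 2 / (ζ - c) := by
    unfold kc
    rw [add_sub_cancel_left]
    simp only [cj, map_div₀, map_pow, Complex.conj_ofReal, Complex.conj_conj]
  have h5 : kc t c (kc t c ζ) = c + t ^ 2 / cj (kc t c ζ - c) := rfl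
  rw [h5, h4, div_div_eq_mul_div, mul_div_cancel_left₀ _ (pow_ne_zero 2 h3)]
  ring

/-- the facts about a hole used for the chart about its waist -/
structure Hole (t : ℝ) (f : ℂ → ℂ) (z : ℂ → ℝ) (z₀ : ℝ) (c : ℂ) : Prop where
  refl : ∀ ζ, t / 2 < ‖ζ - c‖ → ‖ζ - c‖ < 2 * t → f (kc t c ζ) = f ζ ∧ z (kc t c ζ) = - z ζ
  up : ∀ ζ, t ≤ ‖ζ - c‖ → ‖ζ - c‖ < 2 * t → ζ ∈ Dc t z₀ z
  ut : ∀ ζ, t / 2 < ‖ζ - c‖ → ‖ζ - c‖ < 2 * t → ζ ∈ Ut t
  waist : ∀ ζ, ‖ζ - c‖ < 2 * t → (‖ζ - 1‖ = t ∨ ‖ζ + 1‖ = t) → ‖ζ - c‖ = t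
  oc : ∀ ζ ∈ Oc z₀ z, 2 * t ≤ ‖ζ - c‖

theorem hole_p (D : LensData t H z₀ f z) : Hole t f z z₀ 1 := by
  have ht := D.ht
  have ht1 := D.ht1
  have h2 : ∀ ζ : ℂ, ‖ζ - 1‖ < 2 * t → 2 - 2 * t < ‖ζ + 1‖ ∧ ‖ζ‖ < 1 + 2 * t := by
    intro ζ h
    constructor
    · have h3 : ‖(2 : ℂ)‖ ≤ ‖ζ + 1‖ + ‖ζ - 1‖ := by
        have h4 : (2 : ℂ) = (ζ + 1) - (ζ - 1) := by ring
        calc ‖(2 : ℂ)‖ = ‖(ζ + 1) - (ζ - 1)‖ := by rw [← h4]
          _ ≤ _ := norm_sub_le _ _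
      have h5 : ‖(2 : ℂ)‖ = 2 := by norm_num
      rw [h5] at h3
      linarith
    · have h3 : ‖ζ‖ ≤ ‖ζ - 1‖ + ‖(1 : ℂ)‖ := by
        calc ‖ζ‖ = ‖(ζ - 1) + 1‖ := by rw [sub_add_cancel]
          _ ≤ _ := norm_add_le _ _
      rw [norm_one] at h3
      linarith
  refine ⟨fun ζ h1 h3 => D.refl_p ζ h1 h3, fun ζ h1 h3 => ?_, fun ζ h1 h3 => ?_,
    fun ζ h1 h3 => ?_, fun ζ h => ?_⟩
  · obtain ⟨a, b⟩ := h2 ζ h3
    exact ⟨h1, by linarith, Or.inl (by linarith)⟩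
  · obtain ⟨a, b⟩ := h2 ζ h3
    exact ⟨by linarith, h1, by linarith⟩
  · obtain ⟨a, b⟩ := h2 ζ h1
    rcases h3 with h | h
    · exact h
    · linarith
  · obtain ⟨a, b, c⟩ := h
    have := norm_sub_norm_le ζ 1
    rw [norm_one] at this
    linarith

theorem hole_m (D : LensData t H z₀ f z) : Hole t f z z₀ (-1) := by
  have ht := D.ht
  have ht1 := D.ht1
  have h2 : ∀ ζ : ℂ, ‖ζ + 1‖ < 2 * t → 2 - 2 * t < ‖ζ - 1‖ ∧ ‖ζ‖ < 1 + 2 * t := by
    intro ζ h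
    constructor
    · have h3 : ‖(2 : ℂ)‖ ≤ ‖ζ + 1‖ + ‖ζ - 1‖ := by
        have h4 : (2 : ℂ) = (ζ + 1) - (ζ - 1) := by ring
        calc ‖(2 : ℂ)‖ = ‖(ζ + 1) - (ζ - 1)‖ := by rw [← h4]
          _ ≤ _ := norm_sub_le _ _
      have h5 : ‖(2 : ℂ)‖ = 2 := by norm_num
      rw [h5] at h3
      linarith
    · have h3 : ‖ζ‖ ≤ ‖ζ + 1‖ + ‖(1 : ℂ)‖ := by
        calc ‖ζ‖ = ‖(ζ + 1) - 1‖ := by rw [add_sub_cancel_right]
          _ ≤ _ := norm_sub_le _ _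
      rw [norm_one] at h3
      linarith
  refine ⟨fun ζ h1 h3 => ?_, fun ζ h1 h3 => ?_, fun ζ h1 h3 => ?_,
    fun ζ h1 h3 => ?_, fun ζ h => ?_⟩
  · rw [sub_neg_eq_add] at h1 h3
    have h4 := D.refl_m ζ h1 h3
    have h5 : kc t (-1) ζ = -1 + t ^ 2 / cj (ζ + 1) := by
      unfold kc
      rw [sub_neg_eq_add]
    rw [h5]
    exact h4
  · rw [sub_neg_eq_add] at h1 h3
    obtain ⟨a, b⟩ := h2 ζ h3
    exact ⟨by linarith, h1, Or.inl (by linarith)⟩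
  · rw [sub_neg_eq_add] at h1 h3
    obtain ⟨a, b⟩ := h2 ζ h3
    exact ⟨by linarith, by linarith, h1⟩
  · rw [sub_neg_eq_add] at h1 ⊢
    obtain ⟨a, b⟩ := h2 ζ h1
    rcases h3 with h | h
    · linarith
    · exact h
  · obtain ⟨a, b, c⟩ := h
    have := norm_sub_norm_le ζ (-1)
    rw [norm_neg, norm_one] at this
    linarith

theorem chart_waist (D : LensData t H z₀ f z) (hDc : IsCompact (Dc t z₀ z)) {c : ℂ}
    (Hc : Hole t f z z₀ c) {ζ₀ : ℂ} (h0 : ‖ζ₀ - c‖ = t) :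
    ChartAt (Su t z₀ f z) (Cu z₀ f z) H (Xmap f z ζ₀) := by
  have ht := D.ht
  have ht1 := D.ht1
  obtain ⟨V, hVdef⟩ : ∃ V : Set ℂ, V = {w | 2 / 3 * t < ‖w - c‖ ∧ ‖w - c‖ < 3 / 2 * t} := ⟨_, rfl⟩
  obtain ⟨K, hKdef⟩ : ∃ K : Set ℂ, K = {w | 2 / 3 * t ≤ ‖w - c‖ ∧ ‖w - c‖ ≤ 3 / 2 * t} := ⟨_, rfl⟩
  have hVo : IsOpen V := by
    rw [hVdef]
    exact (op_gt _ c).inter (isOpen_lt (f := fun w : ℂ => ‖w - c‖) (g := fun _ => 3 / 2 * t)
      (continuous_id.sub continuous_const).norm continuous_const)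
  have hVK : V ⊆ K := by
    rw [hVdef, hKdef]
    exact fun w hw => ⟨hw.1.le, hw.2.le⟩
  have hKc : IsCompact K := by
    have h1 : K = closedBall c (3 / 2 * t) ∩ {w : ℂ | 2 / 3 * t ≤ ‖w - c‖} := by
      ext w
      rw [hKdef, mem_inter_iff, mem_closedBall, dist_eq_norm]
      exact and_comm
    rw [h1]
    exact (isCompact_closedBall _ _).inter_right (isClosed_le continuous_const
      (continuous_id.sub continuous_const).norm)
  have hKU : K ⊆ Ut t := by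
    rw [hKdef]
    exact fun w hw => Hc.ut w (by linarith [hw.1]) (by linarith [hw.2])
  -- the two halves
  have hup : ∀ w ∈ K, t ≤ ‖w - c‖ → w ∈ Dc t z₀ z := by
    rw [hKdef]
    exact fun w hw h => Hc.up w h (by linarith [hw.2])
  have hkn : ∀ w ∈ K, ‖w - c‖ < t → t < ‖kc t c w - c‖ := by
    rw [hKdef]
    intro w hw h
    have h1 : 0 < ‖w - c‖ := by linarith [hw.1]
    rw [kc_norm, lt_div_iff₀ h1]
    nlinarith
  have hkK : ∀ w ∈ K, kc t c w ∈ K := by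
    rw [hKdef]
    intro w hw
    have h1 : 0 < ‖w - c‖ := by linarith [hw.1]
    have h2 := hw.1
    have h3 := hw.2
    refine ⟨?_, ?_⟩
    · rw [kc_norm, le_div_iff₀ h1]
      nlinarith
    · rw [kc_norm, div_le_iff₀ h1]
      nlinarith
  have hkV : ∀ w ∈ V, kc t c w ∈ V := by
    rw [hVdef]
    intro w hw
    have h1 : 0 < ‖w - c‖ := by linarith [hw.1]
    have h2 := hw.1
    have h3 := hw.2
    refine ⟨?_, ?_⟩
    · rw [kc_norm, lt_div_iff₀ h1]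
      nlinarith
    · rw [kc_norm, div_lt_iff₀ h1]
      nlinarith
  have hne : ∀ w ∈ K, w ≠ c := by
    rw [hKdef]
    rintro w hw rfl
    have := hw.1
    rw [sub_self, norm_zero] at this
    linarith
  have hXk : ∀ w ∈ K, Xmap f z w = sg (Xmap f z (kc t c w)) := by
    intro w hw
    have h1 : t / 2 < ‖w - c‖ ∧ ‖w - c‖ < 2 * t := by
      rw [hKdef] at hw
      exact ⟨by linarith [hw.1], by linarith [hw.2]⟩
    obtain ⟨a, b⟩ := Hc.refl w h1.1 h1.2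
    rw [X_sg, a, b, neg_neg]
    exact ⟨rfl, rfl⟩
  have hmir : ∀ w ∈ K, t < ‖w - c‖ → ∀ ζ ∈ Dc t z₀ z, Xmap f z w ≠ sg (Xmap f z ζ) := by
    intro w hw h ζ hζ e
    obtain ⟨-, h1⟩ := mirX D (Dc_Gb (hup w hw h.le)) (Dc_Gb hζ) e
    have h2 := Hc.waist w (by rw [hKdef] at hw; linarith [hw.2]) h1
    linarith
  have hinj : InjOn (Xmap f z) K := by
    intro w hw w' hw' e
    by_cases h1 : t ≤ ‖w - c‖
    · by_cases h2 : t ≤ ‖w' - c‖
      · exact injX D (Dc_Gb (hup w hw h1)) (Dc_Gb (hup w' hw' h2)) e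
      · push Not at h2
        have h3 := hkn w' hw' h2
        have h4 := hup _ (hkK w' hw') h3.le
        rw [hXk w' hw'] at e
        obtain ⟨h5, -⟩ := mirX D (Dc_Gb (hup w hw h1)) (Dc_Gb h4) e
        rw [← h5] at h3 e
        exact absurd e (hmir w hw h3 w (hup w hw h1))
    · push Not at h1
      by_cases h2 : t ≤ ‖w' - c‖
      · have h3 := hkn w hw h1
        have h4 := hup _ (hkK w hw) h3.le
        rw [hXk w hw] at e
        obtain ⟨h5, -⟩ := mirX D (Dc_Gb (hup w' hw' h2)) (Dc_Gb h4) e.symm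
        rw [← h5] at h3 e
        exact absurd e.symm (hmir w' hw' h3 w' (hup w' hw' h2))
      · push Not at h2
        rw [hXk w hw, hXk w' hw'] at e
        have h3 := injX D (Dc_Gb (hup _ (hkK w hw) (hkn w hw h1).le))
          (Dc_Gb (hup _ (hkK w' hw') (hkn w' hw' h2).le)) (sg.injective e)
        rw [← kc_kc ht c w (hne w hw), ← kc_kc ht c w' (hne w' hw'), h3]
  have hXc : ContinuousOn (Xmap f z) (Gb t) := (X_cont D).mono (Gb_Ut ht)
  have hsXc : ContinuousOn (fun ζ => sg (Xmap f z ζ)) (Gb t) := sg.continuous.comp_continuousOn hXc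
  have hK1 : IsCompact (Xmap f z '' (Dc t z₀ z \ V)) :=
    (hDc.diff hVo).image_of_continuousOn (hXc.mono (sdiff_subset.trans Dc_Gb))
  have hK2 : IsCompact ((fun ζ => sg (Xmap f z ζ)) '' (Dc t z₀ z \ V)) :=
    (hDc.diff hVo).image_of_continuousOn (hsXc.mono (sdiff_subset.trans Dc_Gb))
  -- points of the upper half of the chart
  have hnot1 : ∀ w ∈ V, t ≤ ‖w - c‖ → Xmap f z w ∉ Xmap f z '' (Dc t z₀ z \ V) ∪
      (fun ζ => sg (Xmap f z ζ)) '' (Dc t z₀ z \ V) := by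
    rintro w hw hw1 (⟨ζ, ⟨hζ, hζV⟩, e⟩ | ⟨ζ, ⟨hζ, hζV⟩, e⟩)
    · exact hζV (injX D (Dc_Gb hζ) (Dc_Gb (hup w (hVK hw) hw1)) e ▸ hw)
    · obtain ⟨h1, -⟩ := mirX D (Dc_Gb (hup w (hVK hw) hw1)) (Dc_Gb hζ) e.symm
      exact hζV (h1 ▸ hw)
  have hnot2 : ∀ w ∈ V, t ≤ ‖w - c‖ → sg (Xmap f z w) ∉ Xmap f z '' (Dc t z₀ z \ V) ∪
      (fun ζ => sg (Xmap f z ζ)) '' (Dc t z₀ z \ V) := by
    rintro w hw hw1 (⟨ζ, ⟨hζ, hζV⟩, e⟩ | ⟨ζ, ⟨hζ, hζV⟩, e⟩)
    · obtain ⟨h1, -⟩ := mirX D (Dc_Gb hζ) (Dc_Gb (hup w (hVK hw) hw1)) e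
      exact hζV (h1 ▸ hw)
    · exact hζV (injX D (Dc_Gb hζ) (Dc_Gb (hup w (hVK hw) hw1)) (sg.injective e) ▸ hw)
  have hnot : ∀ w ∈ V, Xmap f z w ∉ Xmap f z '' (Dc t z₀ z \ V) ∪
      (fun ζ => sg (Xmap f z ζ)) '' (Dc t z₀ z \ V) := by
    intro w hw
    by_cases h1 : t ≤ ‖w - c‖
    · exact hnot1 w hw h1
    · push Not at h1
      rw [hXk w (hVK hw)]
      exact hnot2 _ (hkV w hw) (hkn w (hVK hw) h1).le
  have hOV : ∀ ζ ∈ Oc z₀ z, ζ ∉ V := by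
    intro ζ hζ hV
    have := Hc.oc ζ hζ
    rw [hVdef] at hV
    linarith [hV.2]
  have h0V : ζ₀ ∈ V := by
    rw [hVdef]
    exact ⟨by rw [h0]; linarith, by rw [h0]; linarith⟩
  refine ⟨(Xmap f z '' (Dc t z₀ z \ V) ∪ (fun ζ => sg (Xmap f z ζ)) '' (Dc t z₀ z \ V))ᶜ, V,
    Xmap f z, fun _ => 1, (hK1.union hK2).isClosed.isOpen_compl, hnot _ h0V, hVo,
    cmc_mono D.cmc (hVK.trans hKU), emb_of_compact hKc _ ((X_cont D).mono hKU) hinj hVK,
    contDiffOn_const, fun _ _ h => absurd h one_ne_zero, ?_, ?_⟩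
  · ext p
    constructor
    · rintro ⟨⟨ζ, hζ, rfl⟩ | ⟨ζ, hζ, rfl⟩, hU⟩
      · by_cases hζV : ζ ∈ V
        · exact ⟨ζ, ⟨hζV, zero_le_one⟩, rfl⟩
        · exact absurd (Or.inl ⟨ζ, ⟨hζ, hζV⟩, rfl⟩) hU
      · by_cases hζV : ζ ∈ V
        · refine ⟨kc t c ζ, ⟨hkV ζ hζV, zero_le_one⟩, ?_⟩
          change Xmap f z (kc t c ζ) = sg (Xmap f z ζ)
          rw [hXk _ (hVK (hkV ζ hζV)), kc_kc ht c ζ (hne ζ (hVK hζV))]
        · exact absurd (Or.inr ⟨ζ, ⟨hζ, hζV⟩, rfl⟩) hU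
    · rintro ⟨w, ⟨hw, -⟩, rfl⟩
      refine ⟨?_, hnot w hw⟩
      by_cases h1 : t ≤ ‖w - c‖
      · exact Or.inl ⟨w, hup w (hVK hw) h1, rfl⟩
      · push Not at h1
        exact Or.inr ⟨kc t c w, hup _ (hkK w (hVK hw)) (hkn w (hVK hw) h1).le,
          (hXk w (hVK hw)).symm⟩
  · ext p
    constructor
    · rintro ⟨⟨ζ, hζ, rfl⟩ | ⟨ζ, hζ, rfl⟩, hU⟩
      · exact absurd (Or.inl ⟨ζ, ⟨Oc_Dc ht1 hζ, hOV ζ hζ⟩, rfl⟩) hU
      · exact absurd (Or.inr ⟨ζ, ⟨Oc_Dc ht1 hζ, hOV ζ hζ⟩, rfl⟩) hU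
    · rintro ⟨w, ⟨-, hw⟩, -⟩
      exact absurd hw one_ne_zero

theorem charts (D : LensData t H z₀ f z) (hDc : IsCompact (Dc t z₀ z)) :
    IsCmcSurface (Su t z₀ f z) (Cu z₀ f z) H := by
  have key : ∀ ζ ∈ Dc t z₀ z, ChartAt (Su t z₀ f z) (Cu z₀ f z) H (Xmap f z ζ) := by
    intro ζ hζ
    by_cases h1 : ‖ζ - 1‖ = t
    · exact chart_waist D hDc (hole_p D) h1
    by_cases h2 : ‖ζ + 1‖ = t
    · exact chart_waist D hDc (hole_m D) (by rw [sub_neg_eq_add]; exact h2)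
    by_cases h3 : ‖ζ‖ < 19 / 2
    · exact chart_a D hDc hζ h1 h2 h3
    · push Not at h3
      exact chart_b D hDc hζ h3
  refine ⟨?_, ?_⟩
  · exact union_subset_union (image_mono (Oc_Dc D.ht1)) (image_mono (Oc_Dc D.ht1))
  · rintro p (⟨ζ, hζ, rfl⟩ | ⟨ζ, hζ, rfl⟩)
    · exact key ζ hζ
    · exact chart_mirror Su_sg Cu_sg (key ζ hζ)

theorem su_compact (D : LensData t H z₀ f z) (hDc : IsCompact (Dc t z₀ z)) :
    IsCompact (Su t z₀ f z) := by
  have hXc : ContinuousOn (Xmap f z) (Dc t z₀ z) :=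
    (X_cont D).mono (Dc_Gb.trans (Gb_Ut D.ht))
  exact (hDc.image_of_continuousOn hXc).union
    (hDc.image_of_continuousOn (sg.continuous.comp_continuousOn hXc))

theorem base_mem (D : LensData t H z₀ f z) (x : ℝ) (hx : |x| ≤ 1 - t) :
    (x : ℂ) ∈ Dc t z₀ z := by
  have ht := D.ht
  have h1 := abs_le.mp hx
  refine ⟨?_, ?_, Or.inl ?_⟩
  · rw [← Complex.ofReal_one, ← Complex.ofReal_sub, Complex.norm_real, Real.norm_eq_abs,
      le_abs]
    right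
    linarith
  · rw [← Complex.ofReal_one, ← Complex.ofReal_add, Complex.norm_real, Real.norm_eq_abs,
      le_abs]
    left
    linarith
  · rw [Complex.norm_real, Real.norm_eq_abs]
    linarith

theorem su_conn (D : LensData t H z₀ f z) (hDn : IsConnected (Dc t z₀ z)) :
    IsConnected (Su t z₀ f z) := by
  have hXc : ContinuousOn (Xmap f z) (Dc t z₀ z) :=
    (X_cont D).mono (Dc_Gb.trans (Gb_Ut D.ht))
  have ht := D.ht
  have ht1 := D.ht1
  have h1 : |(1 - t)| ≤ 1 - t := by rw [abs_of_pos (by linarith)]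
  have h2 := base_mem D (1 - t) h1
  have h3 : z ((1 - t : ℝ) : ℂ) = 0 := by
    refine D.zero_p _ ?_
    rw [← Complex.ofReal_one, ← Complex.ofReal_sub, Complex.norm_real, Real.norm_eq_abs]
    rw [show (1 - t - 1 : ℝ) = -t by ring, abs_neg, abs_of_pos ht]
  refine IsConnected.union ⟨Xmap f z ((1 - t : ℝ) : ℂ), ⟨_, h2, rfl⟩, ⟨_, h2, ?_⟩⟩
    (hDn.image _ hXc) (hDn.image _ (sg.continuous.comp_continuousOn hXc))
  change sg (Xmap f z ((1 - t : ℝ) : ℂ)) = Xmap f z ((1 - t : ℝ) : ℂ)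
  exact (X_sg.mpr ⟨rfl, by rw [h3, neg_zero]⟩).symm

end waist

section top

variable {t H z₀ : ℝ} {f : ℂ → ℂ} {z : ℂ → ℝ}

/-- fold to the upper half space -/
noncomputable def fold (p : E3) : E3 := !₂[p 0, p 1, |p 2|]

theorem fold_cont : Continuous fold := by
  unfold fold
  refine (PiLp.continuous_toLp 2 _).comp (continuous_pi fun i => ?_)
  fin_cases i
  · exact (EuclideanSpace.proj (0 : Fin 3)).continuous
  · exact (EuclideanSpace.proj (1 : Fin 3)).continuous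
  · exact (EuclideanSpace.proj (2 : Fin 3)).continuous.abs

theorem fold_X (D : LensData t H z₀ f z) {ζ : ℂ} (h : ζ ∈ Dc t z₀ z) :
    fold (Xmap f z ζ) = Xmap f z ζ := by
  have h1 := (nonneg D (Dc_Gb h)).1
  refine e3_ext rfl rfl ?_
  change |z ζ| = z ζ
  exact abs_of_nonneg h1

theorem fold_sg (D : LensData t H z₀ f z) {ζ : ℂ} (h : ζ ∈ Dc t z₀ z) :
    fold (sg (Xmap f z ζ)) = Xmap f z ζ := by
  have h1 := (nonneg D (Dc_Gb h)).1
  refine e3_ext ?_ ?_ ?_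
  · change sg (Xmap f z ζ) 0 = _
    rw [sg0]
  · change sg (Xmap f z ζ) 1 = _
    rw [sg1]
  · change |sg (Xmap f z ζ) 2| = z ζ
    rw [sg2, abs_neg]
    exact abs_of_nonneg h1

theorem exists_param (D : LensData t H z₀ f z) (hDc : IsCompact (Dc t z₀ z)) :
    ∃ q : Su t z₀ f z → ℂ, Continuous q ∧ ∀ p, q p ∈ Dc t z₀ z ∧ Xmap f z (q p) = fold p.1 := by
  have hXc : ContinuousOn (Xmap f z) (Dc t z₀ z) :=
    (X_cont D).mono (Dc_Gb.trans (Gb_Ut D.ht))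
  have : CompactSpace (Dc t z₀ z) := isCompact_iff_compactSpace.mp hDc
  have h1 : Topology.IsClosedEmbedding (fun w : Dc t z₀ z => Xmap f z w) :=
    Continuous.isClosedEmbedding (continuousOn_iff_continuous_domRestrict.mp hXc)
      (injOn_iff_injective.mp ((injX D).mono Dc_Gb))
  have h2 : ∀ p : Su t z₀ f z, fold p.1 ∈ range (fun w : Dc t z₀ z => Xmap f z w) := by
    rintro ⟨p, ⟨ζ, hζ, rfl⟩ | ⟨ζ, hζ, rfl⟩⟩
    · exact ⟨⟨ζ, hζ⟩, (fold_X D hζ).symm⟩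
    · exact ⟨⟨ζ, hζ⟩, (fold_sg D hζ).symm⟩
  refine ⟨fun p => (h1.isEmbedding.toHomeomorph.symm ⟨fold p.1, h2 p⟩ : Dc t z₀ z), ?_, ?_⟩
  · exact continuous_subtype_val.comp (h1.isEmbedding.toHomeomorph.symm.continuous.comp
      ((fold_cont.comp continuous_subtype_val).subtype_mk h2))
  · intro p
    refine ⟨Subtype.coe_prop _, ?_⟩
    have h3 := h1.isEmbedding.toHomeomorph.apply_symm_apply ⟨fold p.1, h2 p⟩
    exact congrArg Subtype.val h3

theorem not_annulus (D : LensData t H z₀ f z) (hDc : IsCompact (Dc t z₀ z)) :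
    ¬ Nonempty (Su t z₀ f z ≃ₜ (Circle × unitInterval)) := by
  have ht := D.ht
  have ht1 := D.ht1
  have hpi := Real.pi_pos
  obtain ⟨q, hq, hq2⟩ := exists_param D hDc
  have hXU : Dc t z₀ z ⊆ Ut t := Dc_Gb.trans (Gb_Ut ht)
  -- first loop
  have m1 : ∀ θ : ℝ, (1 + t * Complex.exp (θ * Complex.I) : ℂ) ∈ Dc t z₀ z ∧
      ‖(1 + t * Complex.exp (θ * Complex.I) : ℂ) - 1‖ = t := by
    intro θ
    have h1 : ‖(1 + t * Complex.exp (θ * Complex.I) : ℂ) - 1‖ = t := by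
      rw [add_sub_cancel_left, norm_mul, Complex.norm_exp_ofReal_mul_I, mul_one,
        Complex.norm_real, Real.norm_eq_abs, abs_of_pos ht]
    exact ⟨(hole_p D).up _ h1.ge (by rw [h1]; linarith), h1⟩
  obtain ⟨l1, hl1⟩ : ∃ l1 : ℝ → Su t z₀ f z, ∀ θ, (l1 θ : E3) =
      Xmap f z (1 + t * Complex.exp (θ * Complex.I)) :=
    ⟨fun θ => ⟨_, Or.inl ⟨_, (m1 θ).1, rfl⟩⟩, fun θ => rfl⟩
  have c1 : Continuous l1 := by
    refine Topology.IsInducing.subtypeVal.continuous_iff.mpr ?_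
    have h1 : (Subtype.val ∘ l1) = fun θ : ℝ => Xmap f z (1 + t * Complex.exp (θ * Complex.I)) :=
      funext hl1
    rw [h1]
    exact (X_cont D).comp_continuous (by fun_prop) fun θ => hXU (m1 θ).1
  have q1 : ∀ θ, q (l1 θ) = 1 + t * Complex.exp (θ * Complex.I) := by
    intro θ
    obtain ⟨h1, h2⟩ := hq2 (l1 θ)
    rw [hl1, fold_X D (m1 θ).1] at h2
    exact injX D (Dc_Gb h1) (Dc_Gb (m1 θ).1) h2
  have p1 : ∀ θ, l1 (θ + 2 * Real.pi) = l1 θ := by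
    intro θ
    refine Subtype.ext ?_
    rw [hl1, hl1]
    congr 3
    have := Complex.exp_periodic (θ * Complex.I)
    rw [← this]
    congr 1
    push_cast
    ring
  -- second loop
  have hab : ∀ θ : ℝ, |(1 - t) * Real.cos θ| ≤ 1 - t := by
    intro θ
    rw [abs_mul, abs_of_pos (by linarith : 0 < 1 - t)]
    exact mul_le_of_le_one_right (by linarith) (Real.abs_cos_le_one θ)
  have m2 : ∀ θ : ℝ, (((1 - t) * Real.cos θ : ℝ) : ℂ) ∈ Dc t z₀ z :=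
    fun θ => base_mem D _ (hab θ)
  have z2 : ∀ θ : ℝ, Real.sin θ = 0 → z (((1 - t) * Real.cos θ : ℝ) : ℂ) = 0 := by
    intro θ h
    have h1 : Real.cos θ = 1 ∨ Real.cos θ = -1 := by
      have h2 := Real.sin_sq_add_cos_sq θ
      rw [h] at h2
      have h3 : (Real.cos θ - 1) * (Real.cos θ + 1) = 0 := by nlinarith
      rcases mul_eq_zero.mp h3 with h4 | h4
      · left; linarith
      · right; linarith
    rcases h1 with h1 | h1
    · refine D.zero_p _ ?_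
      rw [h1, ← Complex.ofReal_one, ← Complex.ofReal_sub, Complex.norm_real, Real.norm_eq_abs]
      rw [show ((1 - t) * 1 - 1 : ℝ) = -t by ring, abs_neg, abs_of_pos ht]
    · refine D.zero_m _ ?_
      rw [h1, ← Complex.ofReal_one, ← Complex.ofReal_add, Complex.norm_real, Real.norm_eq_abs]
      rw [show ((1 - t) * -1 + 1 : ℝ) = t by ring, abs_of_pos ht]
  obtain ⟨l2, hl2⟩ : ∃ l2 : ℝ → Su t z₀ f z, ∀ θ, (l2 θ : E3) =
      if 0 ≤ Real.sin θ then Xmap f z (((1 - t) * Real.cos θ : ℝ) : ℂ)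
      else sg (Xmap f z (((1 - t) * Real.cos θ : ℝ) : ℂ)) := by
    refine ⟨fun θ => ⟨if 0 ≤ Real.sin θ then Xmap f z (((1 - t) * Real.cos θ : ℝ) : ℂ)
      else sg (Xmap f z (((1 - t) * Real.cos θ : ℝ) : ℂ)), ?_⟩, fun θ => rfl⟩
    split_ifs
    · exact Or.inl ⟨_, m2 θ, rfl⟩
    · exact Or.inr ⟨_, m2 θ, rfl⟩
  have cX2 : Continuous fun θ : ℝ => Xmap f z (((1 - t) * Real.cos θ : ℝ) : ℂ) :=
    (X_cont D).comp_continuous (by fun_prop) fun θ => hXU (m2 θ)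
  have c2 : Continuous l2 := by
    refine Topology.IsInducing.subtypeVal.continuous_iff.mpr ?_
    have h1 : (Subtype.val ∘ l2) = fun θ : ℝ => if 0 ≤ Real.sin θ then
      Xmap f z (((1 - t) * Real.cos θ : ℝ) : ℂ)
      else sg (Xmap f z (((1 - t) * Real.cos θ : ℝ) : ℂ)) := funext hl2
    rw [h1]
    refine Continuous.if_le cX2 (sg.continuous.comp cX2) continuous_const Real.continuous_sin
      fun θ h => ?_
    exact X_sg.mpr ⟨rfl, by rw [z2 θ h.symm, neg_zero]⟩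
  have q2 : ∀ θ, q (l2 θ) = (((1 - t) * Real.cos θ : ℝ) : ℂ) := by
    intro θ
    obtain ⟨h1, h2⟩ := hq2 (l2 θ)
    have h3 : fold (l2 θ : E3) = Xmap f z (((1 - t) * Real.cos θ : ℝ) : ℂ) := by
      rw [hl2]
      split_ifs
      · exact fold_X D (m2 θ)
      · exact fold_sg D (m2 θ)
    rw [h3] at h2
    exact injX D (Dc_Gb h1) (Dc_Gb (m2 θ)) h2
  have p2 : ∀ θ, l2 (θ + 2 * Real.pi) = l2 θ := by
    intro θ
    refine Subtype.ext ?_
    rw [hl2, hl2, Real.sin_add_two_pi, Real.cos_add_two_pi]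
  have y2 : ∀ θ, ((l2 θ : E3) 2) * Real.sin θ =
      |Real.sin θ| * z (((1 - t) * Real.cos θ : ℝ) : ℂ) := by
    intro θ
    rw [hl2]
    split_ifs with h
    · rw [X2, abs_of_nonneg h, mul_comm]
    · push Not at h
      rw [sg2, X2, abs_of_neg h]
      ring
  -- the two functions
  have hz0 : 0 < z 0 := by
    refine D.pos 0 ⟨?_, ?_, ?_⟩ ?_ ?_ ?_
    · rw [norm_zero]; norm_num
    · rw [zero_sub, norm_neg, norm_one]; linarith
    · rw [zero_add, norm_one]; linarith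
    · rw [norm_zero]; norm_num
    · rw [zero_sub, norm_neg, norm_one]; linarith
    · rw [zero_add, norm_one]; linarith
  have hproj : Continuous fun p : Su t z₀ f z => (p : E3) 2 :=
    (EuclideanSpace.proj (2 : Fin 3)).continuous.comp continuous_subtype_val
  refine not_ann (fun p => q p - 1)
    (fun p => (((q p).re : ℝ) : ℂ) + (((p : E3) 2 : ℝ) : ℂ) * Complex.I)
    (hq.sub continuous_const) ?_ ?_ ?_ l1 l2 c1 c2 p1 p2 ?_ ?_ ?_ ?_
  · exact (Complex.continuous_ofReal.comp (Complex.continuous_re.comp hq)).add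
      ((Complex.continuous_ofReal.comp hproj).mul continuous_const)
  · intro p h
    have h1 := (hq2 p).1.1
    rw [h, norm_zero] at h1
    linarith
  · intro p h
    have h1 := congrArg Complex.re h
    have h2 := congrArg Complex.im h
    simp at h1 h2
    obtain ⟨h3, h4⟩ := hq2 p
    have h5 : z (q p) = 0 := by
      rw [← X2 (f := f) (z := z) (q p), h4]
      change |(p : E3) 2| = 0
      rw [h2, abs_zero]
    rcases (nonneg D (Dc_Gb h3)).2 h5 with h6 | h6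
    · have h7 := Complex.abs_re_le_norm (q p - 1)
      rw [h6, Complex.sub_re, h1] at h7
      norm_num at h7
      linarith
    · have h7 := Complex.abs_re_le_norm (q p + 1)
      rw [h6, Complex.add_re, h1] at h7
      norm_num at h7
      linarith
  · -- degree of `u1` on `l1`
    refine deg_slit (fun θ => q (l1 θ) - 1) ((hq.comp c1).sub continuous_const)
      (fun θ => by simp only [p1]) 1 0
      fun θ => ?_
    have h1 : (q (l1 θ) - 1) * Complex.exp (((-((1 : ℤ) * θ + 0) : ℝ) : ℂ) * Complex.I) =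
        ((t : ℝ) : ℂ) := by
      rw [q1, add_sub_cancel_left, mul_assoc, ← Complex.exp_add]
      have : (θ : ℂ) * Complex.I + ((-((1 : ℤ) * θ + 0) : ℝ) : ℂ) * Complex.I = 0 := by
        push_cast
        ring
      rw [this, Complex.exp_zero, mul_one]
    rw [h1]
    exact Complex.ofReal_mem_slitPlane.mpr ht
  · -- degree of `u1` on `l2`
    refine deg_slit (fun θ => q (l2 θ) - 1) ((hq.comp c2).sub continuous_const)
      (fun θ => by simp only [p2]) 0 Real.pi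
      fun θ => ?_
    have h1 : (q (l2 θ) - 1) * Complex.exp (((-((0 : ℤ) * θ + Real.pi) : ℝ) : ℂ) * Complex.I) =
        ((1 - (1 - t) * Real.cos θ : ℝ) : ℂ) := by
      have h2 : Complex.exp (((-((0 : ℤ) * θ + Real.pi) : ℝ) : ℂ) * Complex.I) = -1 := by
        have h3 : ((-((0 : ℤ) * θ + Real.pi) : ℝ) : ℂ) * Complex.I = -(Real.pi * Complex.I) := by
          push_cast
          ring
        rw [h3, Complex.exp_neg, Complex.exp_pi_mul_I]
        norm_num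
      rw [h2, q2]
      push_cast
      ring
    rw [h1]
    refine Complex.ofReal_mem_slitPlane.mpr ?_
    have := (abs_le.mp (hab θ)).2
    linarith
  · -- degree of `u2` on `l1`
    refine deg_slit (fun θ => (((q (l1 θ)).re : ℝ) : ℂ) +
      (((l1 θ : E3) 2 : ℝ) : ℂ) * Complex.I) ?_ (fun θ => by simp only [p1]) 0 0 fun θ => ?_
    · exact (Complex.continuous_ofReal.comp (Complex.continuous_re.comp (hq.comp c1))).add
        ((Complex.continuous_ofReal.comp (hproj.comp c1)).mul continuous_const)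
    · have h1 : (l1 θ : E3) 2 = 0 := by
        rw [hl1, X2]
        exact D.zero_p _ (m1 θ).2
      have h2 : Complex.exp (((-((0 : ℤ) * θ + 0) : ℝ) : ℂ) * Complex.I) = 1 := by
        have h3 : ((-((0 : ℤ) * θ + 0) : ℝ) : ℂ) * Complex.I = 0 := by
          push_cast
          ring
        rw [h3, Complex.exp_zero]
      have h3 : ((((q (l1 θ)).re : ℝ) : ℂ) + (((l1 θ : E3) 2 : ℝ) : ℂ) * Complex.I) *
          Complex.exp (((-((0 : ℤ) * θ + 0) : ℝ) : ℂ) * Complex.I) =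
          (((q (l1 θ)).re : ℝ) : ℂ) := by
        rw [h1, h2]
        simp
      rw [h3]
      refine Complex.ofReal_mem_slitPlane.mpr ?_
      have h4 := (m1 θ).2
      rw [← q1] at h4
      have h5 := Complex.abs_re_le_norm (q (l1 θ) - 1)
      rw [h4, Complex.sub_re, Complex.one_re] at h5
      have := (abs_le.mp h5).1
      linarith
  · -- degree of `u2` on `l2`
    refine deg_slit (fun θ => (((q (l2 θ)).re : ℝ) : ℂ) +
      (((l2 θ : E3) 2 : ℝ) : ℂ) * Complex.I) ?_ (fun θ => by simp only [p2]) 1 0 fun θ => ?_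
    · exact (Complex.continuous_ofReal.comp (Complex.continuous_re.comp (hq.comp c2))).add
        ((Complex.continuous_ofReal.comp (hproj.comp c2)).mul continuous_const)
    · rw [Complex.mem_slitPlane_iff]
      left
      have h1 : ((((((q (l2 θ)).re : ℝ) : ℂ) + (((l2 θ : E3) 2 : ℝ) : ℂ) * Complex.I) *
          Complex.exp (((-((1 : ℤ) * θ + 0) : ℝ) : ℂ) * Complex.I))).re =
          (1 - t) * Real.cos θ * Real.cos θ + ((l2 θ : E3) 2) * Real.sin θ := by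
        rw [q2, Complex.mul_re, Complex.exp_ofReal_mul_I_re, Complex.exp_ofReal_mul_I_im]
        simp [Complex.cos_ofReal_re]
      rw [h1, y2]
      have h2 := (nonneg D (Dc_Gb (m2 θ))).1
      have h3 : 0 ≤ |Real.sin θ| * z (((1 - t) * Real.cos θ : ℝ) : ℂ) :=
        mul_nonneg (abs_nonneg _) h2
      by_cases h4 : Real.cos θ = 0
      · have h5 : |Real.sin θ| = 1 := by
          have h6 := Real.sin_sq_add_cos_sq θ
          rw [h4] at h6
          have h7 : |Real.sin θ| ^ 2 = 1 := by rw [sq_abs]; linarith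
          have h8 := abs_nonneg (Real.sin θ)
          nlinarith
        rw [h4, h5, mul_zero, mul_zero, zero_add, one_mul, Complex.ofReal_zero]
        exact hz0
      · have h5 : 0 < (1 - t) * (Real.cos θ * Real.cos θ) :=
          mul_pos (by linarith) (mul_self_pos.mpr h4)
        nlinarith

theorem convex_up (D : LensData t H z₀ f z) :
    IsConvexCurve (Xmap f z '' Oc z₀ z) z₀ ∧
    IsConvexCurve ((fun ζ => sg (Xmap f z ζ)) '' Oc z₀ z) (-z₀) := by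
  obtain ⟨K, γ, a1, a2, a3, a4, a5, a6, a7, a8, a9⟩ := D.conv
  constructor
  · refine ⟨K, γ, a1, a2, a3, a4, a5, a6, a7, a8, ?_⟩
    rw [a9]
    ext x
    constructor
    · rintro ⟨ζ, hζ, rfl⟩
      exact ⟨hζ.2.2, ζ, hζ, rfl⟩
    · rintro ⟨h1, ζ, hζ, h2⟩
      refine ⟨ζ, hζ, e3_ext ?_ ?_ ?_⟩
      · rw [X0, h2]
      · rw [X1, h2]
      · rw [X2, hζ.2.2, h1]
  · refine ⟨K, γ, a1, a2, a3, a4, a5, a6, a7, a8, ?_⟩
    rw [a9]
    ext x
    constructor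
    · rintro ⟨ζ, hζ, rfl⟩
      refine ⟨?_, ζ, hζ, ?_⟩
      · rw [sg2, X2, hζ.2.2]
      · rw [sg0, sg1, X0, X1]
    · rintro ⟨h1, ζ, hζ, h2⟩
      refine ⟨ζ, hζ, e3_ext ?_ ?_ ?_⟩
      · rw [sg0, X0, h2]
      · rw [sg1, X1, h2]
      · rw [sg2, X2, hζ.2.2, h1]

/-- PART C -/
theorem partC : PartC := by
  intro t H z₀ f z D
  have hDc := dc_compact t z₀ z D.ht D.ht1 D.cz D.out1
  have hDn := dc_conn t z₀ z D.ht D.ht1 D.cz D.out1 D.dec
  have hz := D.hz₀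
  exact ⟨_, _, Su t z₀ f z, z₀, -z₀, H, by linarith, (convex_up D).1, (convex_up D).2, D.hH,
    su_compact D hDc, su_conn D hDn, charts D hDc, not_annulus D hDc⟩

end top

end Pool.Agent.Helper45.TLC
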